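import Mathlib

set_option autoImplicit false

namespace Pool.Agent.Results.MP_a41a76_co.No

open Finset

/-- The bundle of agent `i` when good `g` goes to agent `a g`. -/
def bundle {n m : ℕ} (a : Fin m → Fin n) (i : Fin n) : Finset (Fin m) :=
  univ.filter (fun g => a g = i)

/-- agent `i` with additive valuation `w` is EF1-satisfied by `a` -/
def EF1Sat {n m : ℕ} (w : Fin m → ℝ) (i : Fin n) (a : Fin m → Fin n) : Prop :=
  ∀ j, j ≠ i → (∑ x ∈ bundle a j, w x ≤ ∑ x ∈ bundle a i, w x ∨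
    ∃ g ∈ bundle a j, ∑ x ∈ (bundle a j).erase g, w x ≤ ∑ x ∈ bundle a i, w x)

/-- agent `i` with additive valuation `w` is EFX-satisfied by `a` -/
def EFXSat {n m : ℕ} (w : Fin m → ℝ) (i : Fin n) (a : Fin m → Fin n) : Prop :=
  ∀ j, j ≠ i → ∀ g ∈ bundle a j, 0 < w g →
    ∑ x ∈ (bundle a j).erase g, w x ≤ ∑ x ∈ bundle a i, w x

/-- the allocation `a` is epistemic EF1 for agent `i` -/
def EEF1 {n m : ℕ} (w : Fin m → ℝ) (i : Fin n) (a : Fin m → Fin n) : Prop :=
  ∃ b : Fin m → Fin n, bundle b i = bundle a i ∧ EF1Sat w i b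

/-- the allocation `a` is MXS for agent `i` -/
def MXS {n m : ℕ} (w : Fin m → ℝ) (i : Fin n) (a : Fin m → Fin n) : Prop :=
  ∃ b : Fin m → Fin n, EFXSat w i b ∧ ∑ x ∈ bundle b i, w x ≤ ∑ x ∈ bundle a i, w x

/-- the common values of the twelve goods -/
def vN : Fin 12 → ℕ := ![4, 4, 4, 4, 5, 5, 5, 5, 5, 5, 6, 6]

/-- the allocation -/
def aa : Fin 12 → Fin 3 := ![0, 1, 2, 2, 1, 1, 1, 2, 2, 2, 0, 0]

/-- the EFX certificates -/
def bb (i : Fin 3) : Fin 12 → Fin 3 :=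
  ![i, i, i, i, i + 1, i + 1, i + 1, i + 2, i + 2, i + 2, i + 1, i + 2]

lemma cert : ∀ i : Fin 3, (∀ j, j ≠ i → ∀ g ∈ bundle (bb i) j,
    ∑ x ∈ (bundle (bb i) j).erase g, vN x ≤ ∑ x ∈ bundle (bb i) i, vN x) ∧
    ∑ x ∈ bundle (bb i) i, vN x ≤ ∑ x ∈ bundle aa i, vN x := by
  decide +kernel

lemma no21 : ∀ S : Finset (Fin 12), (0 : Fin 12) ∉ S → (10 : Fin 12) ∉ S → (11 : Fin 12) ∉ S →
    ∑ x ∈ S, vN x ≠ 21 := by
  intro S h0 h10 h11 h
  let c : Fin 12 → ℕ := fun x => if x ∈ S then 1 else 0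
  have hc : ∀ x, c x ≤ 1 := fun x => by simp only [c]; split_ifs <;> omega
  have e : ∑ x ∈ S, vN x = ∑ x, vN x * c x := by
    simp [c]
  have e0 : c 0 = 0 := if_neg h0
  have e10 : c 10 = 0 := if_neg h10
  have e11 : c 11 = 0 := if_neg h11
  have e2 : ∑ x, vN x * c x = 4 * c 0 + (4 * c 1 + (4 * c 2 + (4 * c 3 + (5 * c 4 + (5 * c 5 +
      (5 * c 6 + (5 * c 7 + (5 * c 8 + (5 * c 9 + (6 * c 10 + (6 * c 11 + 0))))))))))) := by
    simp only [Fin.sum_univ_succ, Fin.sum_univ_zero]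
    rfl
  have := hc 1
  have := hc 2
  have := hc 3
  omega

theorem result : ∃ (n m : ℕ) (v : Fin n → Fin m → ℝ) (a : Fin m → Fin n),
    (∀ i g, 0 ≤ v i g) ∧ (∀ i, MXS (v i) i a) ∧ ∃ i, ¬ EEF1 (v i) i a := by
  refine ⟨3, 12, fun _ g => (vN g : ℝ), aa, fun _ g => Nat.cast_nonneg _, ?_, 0, ?_⟩
  · intro i
    refine ⟨bb i, fun j hj g hg _ => ?_, ?_⟩
    · beta_reduce
      exact_mod_cast (cert i).1 j hj g hg
    · beta_reduce
      exact_mod_cast (cert i).2
  · rintro ⟨b, hb, h⟩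
    have hA : ∑ x ∈ bundle aa 0, vN x = 16 := by decide +kernel
    have hmem : ∀ g, b g = 0 ↔ aa g = 0 := by
      intro g
      have := congrArg (fun S => g ∈ S) hb
      simpa [bundle] using this
    have hle : ∀ g, aa g ≠ 0 → vN g ≤ 5 := by decide +kernel
    have key : ∀ j : Fin 3, j ≠ 0 → ∑ x ∈ bundle b j, vN x ≤ 21 := by
      intro j hj
      rcases h j hj with h1 | ⟨g, hg, h1⟩
      · rw [hb] at h1
        beta_reduce at h1
        have h2 : ∑ x ∈ bundle b j, vN x ≤ ∑ x ∈ bundle aa 0, vN x := by exact_mod_cast h1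
        omega
      · rw [hb] at h1
        beta_reduce at h1
        have h2 : ∑ x ∈ (bundle b j).erase g, vN x ≤ ∑ x ∈ bundle aa 0, vN x := by
          exact_mod_cast h1
        have h3 := add_sum_erase _ vN hg
        have h4 : b g = j := by simpa [bundle] using hg
        have h5 := hle g (fun e => hj (h4 ▸ (hmem g).2 e))
        omega
    have tot : ∑ j, ∑ x ∈ bundle b j, vN x = ∑ x, vN x := by
      unfold bundle
      exact sum_fiberwise univ b vN
    have t58 : ∑ x, vN x = 58 := by decide +kernel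
    rw [Fin.sum_univ_three, hb, hA, t58] at tot
    have k1 := key 1 (by decide)
    have k2 := key 2 (by decide)
    have nm : ∀ g, aa g = 0 → g ∉ bundle b 1 := by
      intro g hg hg'
      have h4 : b g = 1 := by simpa [bundle] using hg'
      have := (hmem g).2 hg
      rw [h4] at this
      exact absurd this (by decide)
    exact no21 (bundle b 1) (nm 0 rfl) (nm 10 rfl) (nm 11 rfl) (by omega)

end Pool.Agent.Results.MP_a41a76_co.No
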